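import Mathlib
import Pool.Agent.Q36.Ch.Final

open scoped LinearAlgebra.Projectivization

namespace Pool.Agent.Results.MP_81ecef_ag.BelowMinusTwo

open Q36.Ch

/-- Irreducible plane curves have `h`-constants arbitrarily close to (or below) `-9/4`; in
particular there are irreducible singular plane curves with `h < -2`. -/
theorem result (c : ℝ) (hc : -(9 / 4 : ℝ) < c) : ∃ (d : ℕ) (F : MvPolynomial (Fin 3) ℂ),
    F.IsHomogeneous d ∧ Irreducible F ∧ (singSet F).Nonempty ∧ (singSet F).Finite ∧
    hconst d F < c :=
  main c hc

end Pool.Agent.Results.MP_81ecef_ag.BelowMinusTwo
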